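import Mathlib

set_option autoImplicit false
set_option linter.unusedVariables false
set_option linter.unusedSectionVars false

/-! Sequential and parallel systems: closure properties and well-quasi-order tools. -/

namespace Pool.Agent.H.MP_0c20e5_lc

open List Relation

variable {A : Type}

/-- `Sh u v w`: the word `w` is an interleaving of `u` and `v` -/
inductive Sh : List A → List A → List A → Prop
  | nil : Sh [] [] []
  | l (a) {u v w} : Sh u v w → Sh (a :: u) v (a :: w)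
  | r (a) {u v w} : Sh u v w → Sh u (a :: v) (a :: w)

def tau (K : Language A) : Set (List A × List A) := {p | p.1 ++ p.2 ∈ K}

def sig (K : Language A) : Set (List A × List A) := {p | ∃ w ∈ K, Sh p.1 p.2 w}

theorem Sh.comm {u v w : List A} (h : Sh u v w) : Sh v u w := by
  induction h with
  | nil => exact .nil
  | l a _ ih => exact .r a ih
  | r a _ ih => exact .l a ih

theorem Sh.app {u v w u' v' w' : List A} (h : Sh u v w) (h' : Sh u' v' w') :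
    Sh (u ++ u') (v ++ v') (w ++ w') := by
  induction h with
  | nil => exact h'
  | l a _ ih => exact .l a ih
  | r a _ ih => exact .r a ih

theorem shL (u : List A) : Sh u [] u := by
  induction u with
  | nil => exact .nil
  | cons a u ih => exact .l a ih

theorem shA (u v : List A) : Sh u v (u ++ v) := by simpa using (shL u).app (shL v).comm

theorem Sh.splitW {u v w1 w2 : List A} (h : Sh u v (w1 ++ w2)) :
    ∃ u1 u2 v1 v2, u = u1 ++ u2 ∧ v = v1 ++ v2 ∧ Sh u1 v1 w1 ∧ Sh u2 v2 w2 := by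
  induction w1 generalizing u v with
  | nil => exact ⟨[], u, [], v, rfl, rfl, .nil, h⟩
  | cons a w ih =>
    cases h with
    | l _ h =>
      obtain ⟨u1, u2, v1, v2, rfl, rfl, b, c⟩ := ih h
      exact ⟨a :: u1, u2, v1, v2, rfl, rfl, .l a b, c⟩
    | r _ h =>
      obtain ⟨u1, u2, v1, v2, rfl, rfl, b, c⟩ := ih h
      exact ⟨u1, u2, a :: v1, v2, rfl, rfl, .r a b, c⟩

theorem Sh.splitL {u v w : List A} (h : Sh u v w) : ∀ p q, u = p ++ q →
    ∃ v1 v2 w1 w2, v = v1 ++ v2 ∧ w = w1 ++ w2 ∧ Sh p v1 w1 ∧ Sh q v2 w2 := by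
  induction h with
  | nil =>
    intro p q e
    obtain ⟨rfl, rfl⟩ := append_eq_nil_iff.1 e.symm
    exact ⟨[], [], [], [], rfl, rfl, .nil, .nil⟩
  | l a h ih =>
    rintro (_ | ⟨b, p⟩) q e
    · cases e
      exact ⟨[], _, [], _, rfl, rfl, .nil, .l a h⟩
    · obtain ⟨rfl, e'⟩ := cons.inj e
      obtain ⟨v1, v2, w1, w2, rfl, rfl, b, c⟩ := ih p q e'
      exact ⟨v1, v2, a :: w1, w2, rfl, rfl, .l a b, c⟩
  | r a h ih =>
    intro p q e
    obtain ⟨v1, v2, w1, w2, rfl, rfl, b, c⟩ := ih p q e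
    exact ⟨a :: v1, v2, a :: w1, w2, rfl, rfl, .r a b, c⟩

def Cov (S : Set (Language A)) (X : Set (List A × List A)) : Prop :=
  ∀ p ∈ X, ∃ L ∈ S, ∃ R ∈ S, p.1 ∈ L ∧ p.2 ∈ R ∧ ∀ u ∈ L, ∀ v ∈ R, (u, v) ∈ X

def Sys (S : Set (Language A)) : Prop := S.Finite ∧ ∀ L ∈ S, Cov S (tau L) ∧ Cov S (sig L)

def D (K : Language A) : Prop := ∃ S, Sys S ∧ K ∈ S

theorem Cov.mono {S S' : Set (Language A)} {X} (h : Cov S X) (h' : S ⊆ S') : Cov S' X :=
  fun p a => let ⟨L, b, R, c, d⟩ := h p a; ⟨L, h' b, R, h' c, d⟩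

theorem D.congr {K L : Language A} (h : D K) (e : ∀ w, w ∈ K ↔ w ∈ L) : D L :=
  (Set.ext e : K = L) ▸ h

theorem sysOf {T : Set (Language A)} (hT : T.Finite) (h : ∀ L ∈ T, D L) : ∃ S, Sys S ∧ T ⊆ S := by
  choose! S a b using h
  refine ⟨⋃ L ∈ T, S L, ⟨hT.biUnion fun L e => (a L e).1, fun M e => ?_⟩,
    fun L e => Set.mem_biUnion e (b L e)⟩
  obtain ⟨L, c, d⟩ := Set.mem_iUnion₂.1 e
  exact ((a L c).2 M d).imp (·.mono (Set.subset_biUnion_of_mem c)) (·.mono (Set.subset_biUnion_of_mem c))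

theorem build {F : Set (Language A)} (hF : F.Finite) (h : ∀ L ∈ F, Cov F (tau L) ∧
    ∃ G : Set (Language A), G.Finite ∧ (∀ M ∈ G, M ∈ F ∨ D M) ∧ Cov G (sig L)) : ∀ L ∈ F, D L := by
  choose! h G a b c using h
  obtain ⟨S, d, e⟩ := sysOf (T := {M ∈ ⋃ L ∈ F, G L | D M}) ((hF.biUnion a).subset fun _ e => e.1)
    fun _ e => e.2
  refine fun L f => ⟨F ∪ S, ⟨hF.union d.1, ?_⟩, .inl f⟩
  rintro M (k | k)
  · exact ⟨(h M k).mono Set.subset_union_left, (c M k).mono fun N q =>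
      (b M k N q).imp_right fun r => e ⟨Set.mem_biUnion k q, r⟩⟩
  · exact (d.2 M k).imp (·.mono Set.subset_union_right) (·.mono Set.subset_union_right)

theorem D_union {T : Set (Language A)} (hT : T.Finite) (h : ∀ L ∈ T, D L) :
    D {w | ∃ L ∈ T, w ∈ L} := by
  obtain ⟨S, a, b⟩ := sysOf hT h
  refine ⟨insert _ S, ⟨a.1.insert _, ?_⟩, .inl rfl⟩
  rintro M (rfl | k)
  · refine ⟨fun p ⟨L, c, d⟩ => ?_, fun p ⟨w, ⟨L, c, d⟩, e⟩ => ?_⟩
    · obtain ⟨L1, e, R, f, g, g', k⟩ := (a.2 L (b c)).1 p d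
      exact ⟨L1, .inr e, R, .inr f, g, g', fun u x v y => ⟨L, c, k u x v y⟩⟩
    · obtain ⟨L1, e, R, f, g, g', k⟩ := (a.2 L (b c)).2 p ⟨w, d, e⟩
      exact ⟨L1, .inr e, R, .inr f, g, g', fun u x v y =>
        let ⟨w, q, q'⟩ := k u x v y; ⟨w, ⟨L, c, q⟩, q'⟩⟩
  · exact (a.2 M k).imp (·.mono (Set.subset_insert _ _)) (·.mono (Set.subset_insert _ _))

theorem D.or {K L : Language A} (a : D K) (b : D L) : D {w | w ∈ K ∨ w ∈ L} :=
  (D_union (Set.toFinite {K, L}) (by rintro _ (rfl | rfl) <;> assumption)).congr fun w =>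
    ⟨by rintro ⟨_, rfl | rfl, e⟩; exacts [.inl e, .inr e],
      fun e => e.elim (⟨_, .inl rfl, ·⟩) (⟨_, .inr rfl, ·⟩)⟩

theorem D.mul {K L : Language A} (a : D K) (b : D L) : D (K * L) := by
  obtain ⟨S, h, c⟩ := sysOf (Set.toFinite {K, L}) (by rintro _ (rfl | rfl) <;> assumption)
  refine ⟨S ∪ Set.image2 (· * ·) S S, ⟨h.1.union (h.1.image2 _ h.1), ?_⟩,
    .inr ⟨K, c (.inl rfl), L, c (.inr rfl), rfl⟩⟩
  rintro _ (k | ⟨K, a, L, b, rfl⟩)
  · exact (h.2 _ k).imp (·.mono Set.subset_union_left) (·.mono Set.subset_union_left)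
  refine ⟨fun ⟨x, y⟩ ⟨l, d, r, e, f⟩ => ?_, fun ⟨x, y⟩ ⟨_, ⟨l, d, r, e, rfl⟩, f⟩ => ?_⟩
  · obtain ⟨z, rfl, rfl⟩ | ⟨z, rfl, rfl⟩ := append_eq_append_iff.1 f
    · obtain ⟨L1, e1, R, e2, e3, e4, k⟩ := (h.2 L b).1 (z, y) e
      refine ⟨K * L1, .inr ⟨K, a, L1, e1, rfl⟩, R, .inl e2, ⟨l, d, z, e3, rfl⟩, e4, ?_⟩
      rintro _ ⟨s, q, t, q', rfl⟩ v q''
      exact ⟨s, q, _, k t q' v q'', by simp⟩
    · obtain ⟨L1, e1, R, e2, e3, e4, k⟩ := (h.2 K a).1 (x, z) d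
      refine ⟨L1, .inl e1, R * L, .inr ⟨R, e2, L, b, rfl⟩, e3, ⟨z, e4, r, e, rfl⟩, ?_⟩
      rintro u q _ ⟨s, q', t, q'', rfl⟩
      exact ⟨_, k u q s q', t, q'', by simp⟩
  · obtain ⟨u1, u2, v1, v2, rfl, rfl, f1, f2⟩ := f.splitW
    obtain ⟨L1, d1, R1, d2, d3, d4, k⟩ := (h.2 K a).2 (u1, v1) ⟨l, d, f1⟩
    obtain ⟨L2, e1, R2, e2, e3, e4, k'⟩ := (h.2 L b).2 (u2, v2) ⟨r, e, f2⟩
    refine ⟨L1 * L2, .inr ⟨_, d1, _, e1, rfl⟩, R1 * R2, .inr ⟨_, d2, _, e2, rfl⟩,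
      ⟨_, d3, _, e3, rfl⟩, ⟨_, d4, _, e4, rfl⟩, ?_⟩
    rintro _ ⟨s, q, t, q', rfl⟩ _ ⟨s', r, t', r', rfl⟩
    obtain ⟨w, g, g'⟩ := k s q s' r
    obtain ⟨w', j, j'⟩ := k' t q' t' r'
    exact ⟨_, ⟨w, g, w', j, rfl⟩, g'.app j'⟩

theorem D_one {x : List A} (h : x.length ≤ 1) : D {x} := by
  refine ⟨{{[]}, {x}}, ⟨Set.toFinite _, ?_⟩, .inr rfl⟩
  have k : ∀ (X : Set (List A × List A)), (∀ p ∈ X, (p.1 = [] ∨ p.1 = x) ∧ (p.2 = [] ∨ p.2 = x)) →
      Cov {{[]}, {x}} X := fun X h p a =>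
    ⟨{p.1}, (h p a).1.imp (congrArg _) (congrArg _), {p.2}, (h p a).2.imp (congrArg _) (congrArg _),
      rfl, rfl, by rintro _ rfl _ rfl; exact a⟩
  obtain _ | ⟨a, _ | _⟩ := x
  · rintro _ (rfl | rfl) <;> refine ⟨k _ fun p e => by simpa using append_eq_nil_iff.1 e, k _ ?_⟩ <;>
      rintro ⟨_, _⟩ ⟨_, rfl, ⟨⟩⟩ <;> simp
  · rintro _ (rfl | rfl)
    · refine ⟨k _ fun p e => by simp [append_eq_nil_iff.1 e], k _ ?_⟩
      rintro ⟨_, _⟩ ⟨_, rfl, ⟨⟩⟩
      simp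
    · refine ⟨k _ fun p e => ?_, k _ ?_⟩
      · obtain e | e := append_eq_singleton_iff.1 e <;> simp [e]
      · rintro ⟨_, _⟩ ⟨_, rfl, _ | ⟨_, ⟨⟩⟩ | ⟨_, ⟨⟩⟩⟩ <;> simp
  · simp at h

theorem D_one' (L : Language A) {x : List A} (h : x.length ≤ 1) : D {w | w ∈ L ∧ w = x} :=
  (D_union (T := {M | M = {x} ∧ x ∈ L}) ((Set.finite_singleton _).subset fun _ e => e.1)
    fun _ e => e.1 ▸ D_one h).congr fun w =>
      ⟨by rintro ⟨_, ⟨rfl, e⟩, rfl⟩; exact ⟨e, rfl⟩, by rintro ⟨e, rfl⟩; exact ⟨_, ⟨rfl, e⟩, rfl⟩⟩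

theorem Sh.prod {M : Type} [CommMonoid M] (c : A → M) {u v w : List A} (h : Sh u v w) :
    (w.map c).prod = (u.map c).prod * (v.map c).prod := by
  induction h with
  | nil => simp
  | l a _ ih => simp [ih, mul_assoc]
  | r a _ ih => simp [ih, mul_left_comm]

theorem D.inter {M : Type} [CommMonoid M] [Finite M] (c : A → M) {K : Language A} (h : D K) (m : M) :
    D {w | w ∈ K ∧ (w.map c).prod = m} := by
  obtain ⟨S, a, b⟩ := h
  refine ⟨Set.image2 (fun K m => {w | w ∈ K ∧ (w.map c).prod = m}) S Set.univ,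
    ⟨a.1.image2 _ Set.finite_univ, ?_⟩, K, b, m, trivial, rfl⟩
  rintro _ ⟨K, b, m, -, rfl⟩
  refine ⟨fun p ⟨d, e⟩ => ?_, fun p ⟨w, ⟨d, e⟩, f⟩ => ?_⟩
  · obtain ⟨L, d1, R, d2, d3, d4, k⟩ := (a.2 K b).1 p d
    exact ⟨_, ⟨L, d1, _, trivial, rfl⟩, _, ⟨R, d2, _, trivial, rfl⟩, ⟨d3, rfl⟩, ⟨d4, rfl⟩,
      fun u x v y => ⟨k u x.1 v y.1, by simpa [x.2, y.2] using e⟩⟩
  · obtain ⟨L, d1, R, d2, d3, d4, k⟩ := (a.2 K b).2 p ⟨w, d, f⟩
    exact ⟨_, ⟨L, d1, _, trivial, rfl⟩, _, ⟨R, d2, _, trivial, rfl⟩, ⟨d3, rfl⟩, ⟨d4, rfl⟩,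
      fun u x v y => let ⟨z, q, q'⟩ := k u x.1 v y.1
        ⟨z, ⟨q, by rw [q'.prod, x.2, y.2, ← f.prod, e]⟩, q'⟩⟩

theorem Sh.map {B : Type} (e : B → A) {u v w : List B} (h : Sh u v w) :
    Sh (u.map e) (v.map e) (w.map e) := by
  induction h with
  | nil => exact .nil
  | l a _ ih => exact .l _ ih
  | r a _ ih => exact .r _ ih

theorem Sh.unmap {B : Type} (e : B → A) {u v : List A} {w : List B} (h : Sh u v (w.map e)) :
    ∃ u' v', u = List.map e u' ∧ v = List.map e v' ∧ Sh u' v' w := by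
  induction w generalizing u v with
  | nil => cases h; exact ⟨[], [], rfl, rfl, .nil⟩
  | cons a w ih =>
    cases h with
    | l _ h =>
      obtain ⟨u, v, rfl, rfl, k⟩ := ih h
      exact ⟨a :: u, v, rfl, rfl, .l a k⟩
    | r _ h =>
      obtain ⟨u, v, rfl, rfl, k⟩ := ih h
      exact ⟨u, a :: v, rfl, rfl, .r a k⟩

theorem D.map {B : Type} (e : B → A) {K : Language B} (h : D K) : D (List.map e '' K) := by
  obtain ⟨S, a, b⟩ := h
  refine ⟨(fun K => List.map e '' K) '' S, ⟨a.1.image _, ?_⟩, K, b, rfl⟩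
  rintro _ ⟨K, b, rfl⟩
  refine ⟨fun ⟨x, y⟩ ⟨w, d, f⟩ => ?_, fun ⟨x, y⟩ ⟨_, ⟨w, d, rfl⟩, f⟩ => ?_⟩
  · obtain ⟨u, v, rfl, rfl, rfl⟩ := map_eq_append_iff.1 f
    obtain ⟨L, d1, R, d2, d3, d4, k⟩ := (a.2 K b).1 (u, v) d
    refine ⟨_, ⟨L, d1, rfl⟩, _, ⟨R, d2, rfl⟩, ⟨u, d3, rfl⟩, ⟨v, d4, rfl⟩, ?_⟩
    rintro _ ⟨s, q, rfl⟩ _ ⟨t, q', rfl⟩
    exact ⟨_, k s q t q', map_append⟩
  · obtain ⟨u, v, rfl, rfl, f'⟩ := f.unmap
    obtain ⟨L, d1, R, d2, d3, d4, k⟩ := (a.2 K b).2 (u, v) ⟨w, d, f'⟩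
    refine ⟨_, ⟨L, d1, rfl⟩, _, ⟨R, d2, rfl⟩, ⟨u, d3, rfl⟩, ⟨v, d4, rfl⟩, ?_⟩
    rintro _ ⟨s, q, rfl⟩ _ ⟨t, q', rfl⟩
    obtain ⟨z, r, r'⟩ := k s q t q'
    exact ⟨_, ⟨z, r, rfl⟩, r'.map e⟩

section
variable {X Y : Type} {r : X → X → Prop}

theorem cover (h : WellQuasiOrdered r) (P : Set X) :
    ∃ P0 ⊆ P, P0.Finite ∧ ∀ p ∈ P, ∃ q ∈ P0, r q p := by
  by_contra k
  obtain ⟨f, -, b⟩ := exists_seq_of_forall_finset_exists (· ∈ P) (fun x y => ¬ r x y) fun s a => by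
    by_contra q
    exact k ⟨s, a, s.finite_toSet, fun p e => by
      by_contra q'
      exact q ⟨p, e, fun x e f => q' ⟨x, e, f⟩⟩⟩
  obtain ⟨m, n, c, d⟩ := h f
  exact b m n c d

theorem acc (h : WellQuasiOrdered r) :
    WellFounded fun J I : Set X => (∀ x y, x ∈ I → r x y → y ∈ I) ∧ I ⊂ J := by
  refine wellFounded_iff_isEmpty_descending_chain.2 ⟨fun ⟨f, a⟩ => ?_⟩
  choose y b c using fun n => Set.exists_of_ssubset (a n).2
  obtain ⟨m, n, d, e⟩ := h y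
  exact c n (monotone_nat_of_le_succ (fun n => (a n).2.1) d ((a _).1 _ _ (b m) e))

theorem finRange {s : Y → Y → Prop} (h : WellQuasiOrdered r) (h' : WellQuasiOrdered s) (f : X → Set Y)
    (a : ∀ x y, r x y → f x ⊆ f y) (b : ∀ x u v, u ∈ f x → s u v → v ∈ f x) : (Set.range f).Finite := by
  by_contra k
  choose x hx using fun n => (Set.Infinite.natEmbedding _ k n).2
  have : IsPreorder X fun x y => f x ⊆ f y :=
    { refl := fun _ => subset_rfl, trans := fun _ _ _ => Set.Subset.trans }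
  obtain ⟨g, c⟩ := WellQuasiOrdered.exists_monotone_subseq (r := fun x y => f x ⊆ f y)
    (fun u => let ⟨m, n, c, d⟩ := h u; ⟨m, n, c, a _ _ d⟩) x
  exact (wellFounded_iff_isEmpty_descending_chain.1 (acc h')).false ⟨fun n => f (x (g n)), fun n =>
    ⟨b _, (c n (n + 1) (by omega)).ssubset_of_ne fun e => by
      rw [hx, hx] at e
      simpa using g.injective ((Set.Infinite.natEmbedding _ k).injective (Subtype.ext e))⟩⟩

theorem wqo_lab (h : WellQuasiOrdered r) [Finite Y] (c : X → Y) :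
    WellQuasiOrdered fun a b => c a = c b ∧ r a b :=
  fun f => (Finite.wellQuasiOrdered (α := Y) (· = ·)).prod h fun n => (c (f n), f n)

variable {G : Type} [Group G] (val : X → G)

def pi (w : List X) : G := (w.map val).prod

@[simp] theorem pi_app (u v : List X) : pi val (u ++ v) = pi val u * pi val v := by simp [pi]
@[simp] theorem pi_cons (a) (v : List X) : pi val (a :: v) = val a * pi val v := by simp [pi]
@[simp] theorem pi_nil : pi val [] = 1 := rfl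

inductive Ins (r : X → X → Prop) : List X → List X → Prop
  | nil {y} : pi val y = 1 → Ins r [] y
  | cons {y a b u v} : pi val y = 1 → r a b → Ins r u v → Ins r (a :: u) (y ++ b :: v)

def lab : G → List X → List (G × X)
  | _, [] => []
  | g, a :: u => (g, a) :: lab (g * val a) u

theorem wqoIns [Finite G] [IsPreorder X r] (h : WellQuasiOrdered r) (hv : ∀ a b, r a b → val a = val b) :
    WellQuasiOrdered (Ins val r) := by
  have key : ∀ v u g g', SublistForall₂ (fun a b : G × X => a.1 = b.1 ∧ r a.2 b.2) (lab val g u) (lab val g' v) →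
      g * pi val u = g' * pi val v → ∀ y, g * pi val y = g' → Ins val r u (y ++ v) := by
    intro v
    induction v with
    | nil =>
      rintro (_ | _) g g' a b y rfl
      · exact .nil (by simpa using b.symm)
      · cases a
    | cons c v ih =>
      rintro (_ | ⟨d, u⟩) g g' a b y rfl
      · exact .nil (by simpa [mul_assoc] using b.symm)
      · cases a with
        | cons a a' =>
          exact .cons (by simpa using a.1.symm) a.2 (ih u _ _ a' (by simpa [mul_assoc] using b) []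
            (by rw [← hv _ _ a.2, ← (show g = g * pi val y from a.1)]; simp))
        | cons_right a =>
          simpa using ih (d :: u) g _ a (by simpa [mul_assoc] using b) (y ++ [c]) (by simp [mul_assoc])
  have : IsPreorder (G × X) fun a b => a.1 = b.1 ∧ r a.2 b.2 :=
    { refl := fun _ => ⟨rfl, refl _⟩, trans := fun _ _ _ a b => ⟨a.1.trans b.1, _root_.trans a.2 b.2⟩ }
  have H := (Set.partiallyWellOrderedOn_univ_iff.2 ((Finite.wellQuasiOrdered (α := G) (· = ·)).prod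
    h)).partiallyWellOrderedOn_sublistForall₂
  intro f
  obtain ⟨m, n, a, b, c⟩ := wqo_lab H (fun l => (l.1.map fun x => val x.2).prod)
    fun n => ⟨lab val 1 (f n), by simp⟩
  have k : ∀ u g, ((lab val g u).map fun x => val x.2).prod = pi val u := fun u => by
    induction u <;> simp [lab, *]
  exact ⟨m, n, a, key _ _ _ _ c (by simpa only [k, one_mul] using b) [] (by simp)⟩
end

end Pool.Agent.H.MP_0c20e5_lc
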