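import Pool.Agent.H.MP_0c20e5_lc.A

set_option autoImplicit false
set_option linter.unusedVariables false
set_option linter.unusedSectionVars false

/-! Languages closed under insertion of words of the kernel of a morphism to a finite group. -/

namespace Pool.Agent.H.MP_0c20e5_lc

open List Relation

variable {A G : Type} [Group G] (val : A → G)

def St (u v : List A) : Prop := ∃ p q k, u = p ++ q ∧ v = p ++ k ++ q ∧ pi val k = 1

abbrev Le := ReflTransGen (St val)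

def Up (L : Language A) : Prop := ∀ u v, u ∈ L → St val u v → v ∈ L

instance : IsPreorder (List A) (Le val) := { refl := fun _ => .refl, trans := fun _ _ _ => .trans }

variable {val}

theorem Up.le {L u v} (h : Up val L) (a : u ∈ L) (b : Le val u v) : v ∈ L := by
  induction b with
  | refl => exact a
  | tail _ c ih => exact h _ _ ih c

theorem upLe (x) : Up val {z | Le val x z} := fun _ _ a b => a.tail b

theorem St.ctx {u v} (h : St val u v) (s t) : St val (s ++ u ++ t) (s ++ v ++ t) :=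
  let ⟨p, q, k, a, b, c⟩ := h; ⟨s ++ p, q ++ t, k, by simp [a], by simp [b], c⟩

theorem Le.ctx {u v} (h : Le val u v) (s t) : Le val (s ++ u ++ t) (s ++ v ++ t) :=
  h.lift (fun u => s ++ u ++ t) fun _ _ a => a.ctx s t

theorem St.pi {u v} (h : St val u v) : pi val u = pi val v := by
  obtain ⟨p, q, k, rfl, rfl, c⟩ := h
  simp [c]

theorem Le.pi {u v} (h : Le val u v) : pi val u = pi val v := by
  induction h with
  | refl => rfl
  | tail _ c ih => exact ih.trans c.pi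

theorem Ins.le {u v} (h : Ins val (· = ·) u v) : Le val u v := by
  induction h with
  | nil a => exact .single ⟨[], [], _, rfl, by simp, a⟩
  | @cons y a b u v c d _ ih =>
    subst d
    exact .tail (by simpa using ih.ctx [a] []) ⟨[], a :: v, y, rfl, rfl, c⟩

theorem Sh.st {u v w u'} (h : Sh u v w) (a : St val u u') : ∃ w', Sh u' v w' ∧ St val w w' := by
  obtain ⟨p, q, k, rfl, rfl, c⟩ := a
  obtain ⟨v1, v2, w1, w2, rfl, rfl, d, e⟩ := h.splitL p q rfl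
  exact ⟨_, by simpa using (d.app (shL k)).app e, w1, w2, k, rfl, rfl, c⟩

theorem Up.sig1 {F} (h : Up val F) (v) : Up val {x | (x, v) ∈ sig F} := fun _ _ ⟨w, a, b⟩ c =>
  let ⟨w', d, e⟩ := b.st c; ⟨w', h _ _ a e, d⟩

theorem sig_comm {F : Language A} {u v} (h : (u, v) ∈ sig F) : (v, u) ∈ sig F :=
  let ⟨w, a, b⟩ := h; ⟨w, a, b.comm⟩

theorem Up.sig2 {F u v u' v'} (h : Up val F) (a : (u, v) ∈ sig F) (b : Le val u u') (c : Le val v v') :
    (u', v') ∈ sig F := sig_comm ((h.sig1 u').le (sig_comm ((h.sig1 v).le a b)) c)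

def Res (Q : Language A) : List (List A) → Language A
  | [] => Q
  | u :: U => {x | (x, u) ∈ sig (Res Q U)}

theorem Up.res {Q} (h : Up val Q) : ∀ U, Up val (Res Q U)
  | [] => h
  | u :: U => (h.res U).sig1 u

theorem gap {Q : Language A} {U : List (List A)} : ∀ {x}, x ++ U.flatten ∈ Q → x ∈ Res Q U := by
  induction U with
  | nil => simp [Res]
  | cons u U ih => exact fun h => ⟨_, ih (by simpa using h), shA _ _⟩

theorem res_app (Q : Language A) (y U) : Res Q (y ++ U) = Res (Res Q U) y := by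
  induction y <;> simp [Res, *]

theorem pi_pi (y : List (List A)) : pi (pi val) y = pi val y.flatten := by
  induction y <;> simp [*]

theorem res_mono {Q} (h : Up val Q) {U U'} (a : Ins (pi val) (Le val) U U') :
    ∀ x ∈ Res Q U, x ∈ Res Q U' := by
  have k : ∀ Q y, Up val Q → pi (pi val) y = 1 → ∀ x ∈ Q, x ∈ Res Q y := fun Q y h c x d =>
    gap (h _ _ d ⟨x, [], y.flatten, by simp, by simp, (pi_pi y).symm.trans c⟩)
  induction a with
  | nil c => exact k _ _ h c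
  | cons c d _ ih =>
    rintro x ⟨w, e, f⟩
    rw [res_app]
    exact k _ _ (h.res (_ :: _)) c _ ((h.res _).sig2 ⟨w, ih _ e, f⟩ .refl d)

theorem res_tau {T : Set (Language A)} {Q} (h : Cov T (tau Q)) (U) :
    Cov (Set.image2 Res T Set.univ) (tau (Res Q U)) := by
  induction U with
  | nil =>
    intro p a
    obtain ⟨L, b, R, c, d⟩ := h p a
    exact ⟨L, ⟨L, b, [], trivial, rfl⟩, R, ⟨R, c, [], trivial, rfl⟩, d⟩
  | cons u U ih =>
    rintro ⟨x, y⟩ ⟨z, a, b⟩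
    obtain ⟨u1, u2, z1, z2, rfl, rfl, c, d⟩ := b.splitL x y rfl
    obtain ⟨_, ⟨L, e1, U1, -, rfl⟩, _, ⟨R, e2, U2, -, rfl⟩, e3, e4, k⟩ := ih (z1, z2) a
    exact ⟨_, ⟨L, e1, u1 :: U1, trivial, rfl⟩, _, ⟨R, e2, u2 :: U2, trivial, rfl⟩, ⟨z1, e3, c⟩, ⟨z2, e4, d⟩,
      fun _ ⟨s, f, f'⟩ _ ⟨t, g, g'⟩ => ⟨_, k s f t g, f'.app g'⟩⟩

def Bl : List A → Language A
  | [] => {[]}
  | a :: l => {w | ∃ x y, w = x ++ y ∧ (a ∉ x ∨ x = [a]) ∧ y ∈ Bl l}

def Rich (n : ℕ) (v : List A) : Prop := ∀ l : List A, l.length ≤ n → v ∉ Bl l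

variable [Finite A] [Finite G]

theorem wqoI : WellQuasiOrdered (Ins val (· = ·)) :=
  wqoIns val (Finite.wellQuasiOrdered _) fun _ _ e => e ▸ rfl

theorem wqoLe : WellQuasiOrdered (Le val) :=
  fun f => let ⟨m, n, a, b⟩ := wqoI (val := val) f; ⟨m, n, a, b.le⟩

section
variable (hB : ∀ a L, Up val L → D {w | w ∈ L ∧ a ∉ w})
include hB

theorem poor (l : List A) : ∀ L, Up val L → D {w | w ∈ L ∧ w ∈ Bl l} := by
  induction l with
  | nil => exact fun L _ => D_one' L (by simp)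
  | cons a l ih =>
    intro L h
    obtain ⟨P, b, c, d⟩ := cover ((wqoLe (val := val)).prod (wqoLe (val := val)))
      {p | p.1 ++ p.2 ∈ L ∧ (a ∉ p.1 ∨ p.1 = [a]) ∧ p.2 ∈ Bl l}
    refine (D_union (c.image fun p => @HMul.hMul (Language A) (Language A) (Language A) _
      {w | Le val p.1 w ∧ a ∉ w ∨ Le val p.1 w ∧ w = [a]} {w | Le val p.2 w ∧ w ∈ Bl l}) ?_).congr
      fun w => ⟨?_, ?_⟩
    · rintro _ ⟨p, -, rfl⟩
      exact ((hB a _ (upLe _)).or (D_one' {w | Le val p.1 w} (x := [a]) le_rfl)).mul (ih _ (upLe _))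
    · rintro ⟨_, ⟨p, e, rfl⟩, x, f, y, g, rfl⟩
      exact ⟨h.le (b e).1 (.trans (by simpa using (f.elim (·.1) (·.1)).ctx [] p.2)
        (by simpa using g.1.ctx x [])), x, y, rfl, f.imp (·.2) (·.2), g.2⟩
    · rintro ⟨e, x, y, rfl, f, g⟩
      obtain ⟨p, k, k1, k2⟩ := d (x, y) ⟨e, f, g⟩
      exact ⟨_, ⟨p, k, rfl⟩, x, f.imp (⟨k1, ·⟩) (⟨k1, ·⟩), y, ⟨k2, g⟩, rfl⟩

theorem core {T : Set (Language A)} (hT : T.Finite) (h : ∀ Q ∈ T, Up val Q ∧ Cov T (tau Q)) (n : ℕ)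
    (hr : ∀ Q ∈ T, ∀ U u v, (u, v) ∈ sig (Res Q U) → Rich n u → Rich n v → ∃ L R,
      (L ∈ T ∨ D L) ∧ (R ∈ T ∨ D R) ∧ (∀ x, Le val u x → x ∈ L) ∧ (∀ y, Le val v y → y ∈ R) ∧
        ∀ x ∈ L, ∀ y ∈ R, (x, y) ∈ sig (Res Q U)) : ∀ Q ∈ T, D Q := by
  refine fun Q a => build (F := Set.image2 Res T Set.univ) ((hT.biUnion fun Q a =>
    finRange (wqoIns (pi val) (wqoLe (val := val)) fun _ _ => Le.pi) (wqoLe (val := val)) (Res Q)
      (fun _ _ => res_mono (h Q a).1) fun U _ _ => ((h Q a).1.res U).le).subset ?_) ?_ Q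
    ⟨Q, a, [], trivial, rfl⟩
  · rintro _ ⟨Q, a, U, -, rfl⟩
    exact Set.mem_biUnion a ⟨U, rfl⟩
  rintro _ ⟨Q, a, U, -, rfl⟩
  refine ⟨res_tau (h Q a).2 U, ?_⟩
  have := (finite_length_le A n).to_subtype
  obtain ⟨P, b, c, d⟩ := cover (wqo_lab ((wqoLe (val := val)).prod (wqoLe (val := val)))
    fun p (l : {l : List A | l.length ≤ n}) => (p.1 ∈ Bl l.1, p.2 ∈ Bl l.1)) (sig (Res Q U))
  have up := (h Q a).1.res U
  have key : ∀ p ∈ P, ∃ L R, (L ∈ Set.image2 Res T Set.univ ∨ D L) ∧ (R ∈ Set.image2 Res T Set.univ ∨ D R) ∧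
      (∀ x ∈ L, ∀ y ∈ R, (x, y) ∈ sig (Res Q U)) ∧ ∀ q : List A × List A,
        (∀ l : List A, l.length ≤ n → (p.1 ∈ Bl l ↔ q.1 ∈ Bl l) ∧ (p.2 ∈ Bl l ↔ q.2 ∈ Bl l)) →
          Le val p.1 q.1 → Le val p.2 q.2 → q.1 ∈ L ∧ q.2 ∈ R := by
    rintro ⟨u, v⟩ e
    by_cases f : Rich n u
    · by_cases g : Rich n v
      · obtain ⟨L, R, k1, k2, k3, k4, k5⟩ := hr Q a U u v (b e) f g
        exact ⟨L, R, k1.imp_left (⟨L, ·, [], trivial, rfl⟩), k2.imp_left (⟨R, ·, [], trivial, rfl⟩), k5,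
          fun q _ r s => ⟨k3 _ r, k4 _ s⟩⟩
      · simp only [Rich, not_forall, not_not] at g
        obtain ⟨l, g, g'⟩ := g
        exact ⟨Res Q (v :: U), _, .inl ⟨Q, a, _, trivial, rfl⟩, .inr (poor hB l _ (upLe v)),
          fun x r y s => up.sig2 r .refl s.1, fun q r s t => ⟨(up.sig1 v).le (b e) s, t, (r l g).2.1 g'⟩⟩
    · simp only [Rich, not_forall, not_not] at f
      obtain ⟨l, g, g'⟩ := f
      exact ⟨_, Res Q (u :: U), .inr (poor hB l _ (upLe u)), .inl ⟨Q, a, _, trivial, rfl⟩,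
        fun x r y s => sig_comm (up.sig2 s .refl r.1), fun q r s t =>
          ⟨⟨s, (r l g).1.1 g'⟩, (up.sig1 u).le (sig_comm (b e)) t⟩⟩
  choose! L R k1 k2 k3 k4 using key
  refine ⟨L '' P ∪ R '' P, (c.image _).union (c.image _), ?_, fun q e => ?_⟩
  · rintro _ (⟨p, e, rfl⟩ | ⟨p, e, rfl⟩)
    exacts [k1 p e, k2 p e]
  · obtain ⟨p, f, g, g1, g2⟩ := d q e
    have := k4 p f q (fun l r => by simpa using congrFun g ⟨l, r⟩) g1 g2
    exact ⟨_, .inl ⟨p, f, rfl⟩, _, .inr ⟨p, f, rfl⟩, this.1, this.2, k3 p f⟩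
end

def Idl (I : Language A) : Prop := ∀ p x q, x ∈ I → p ++ x ++ q ∈ I

def J (val : A → G) (x : List A) : Language A := {z | ∃ p q, Le val (p ++ x ++ q) z}

theorem J_up (x) : Up val (J val x) := fun _ _ ⟨p, q, a⟩ b => ⟨p, q, a.tail b⟩

theorem J_idl (x) : Idl (J val x) := fun s _ t ⟨p, q, a⟩ => ⟨s ++ p, q ++ t, by simpa using a.ctx s t⟩

theorem J_self (x) : x ∈ J val x := ⟨[], [], by simp; rfl⟩

theorem wrap {I : Language A} (h : Idl I) {x y} (a : (x, y) ∈ sig I) (p q p' q') :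
    (p ++ x ++ q, p' ++ y ++ q') ∈ sig I :=
  let ⟨w, b, c⟩ := a; ⟨_, h _ w _ b, ((shA p p').app c).app (shA q q')⟩

theorem esc {I : Language A} (h : Idl I) (h0 : ∃ w, w ∈ I) {u v} (a : u ∉ I) (b : Rich 1 v) :
    ∃ s, s ++ u ∉ I ∧ (s ++ u, v) ∈ sig I := by
  by_contra k
  obtain ⟨w, c⟩ := h0
  refine (?_ : w ++ u ∉ I) (h [] w u c)
  clear c
  induction w with
  | nil => exact a
  | cons x w ih =>
    obtain ⟨v1, v2, rfl⟩ := append_of_mem (a := x) (l := v) (by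
      by_contra q
      exact b [x] le_rfl ⟨v, [], by simp, .inl q, rfl⟩)
    exact fun e => k ⟨w, ih, _, h v1 _ v2 e, by
      simpa using (shL v1).comm.app (Sh.r x (shA (w ++ u) v2))⟩

def QQ (L : Language A) : Set (Language A) :=
  {Q | ∃ T : Set (List A × List A), Q = {x | ∀ c ∈ T, c.1 ++ x ++ c.2 ∈ L}}

theorem QQ_spec {L} (h : Up val L) : (QQ L).Finite ∧ L ∈ QQ L ∧ Set.univ ∈ QQ L ∧
    ∀ Q ∈ QQ L, Up val Q ∧ Cov (QQ L) (tau Q) := by
  refine ⟨((finRange ((wqoLe (val := val)).prod (wqoLe (val := val))) (wqoLe (val := val))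
    (fun c : List A × List A => {x | c.1 ++ x ++ c.2 ∈ L}) (fun c d e x f => h.le f (.trans
      (by simpa using e.1.ctx [] (x ++ c.2)) (by simpa using e.2.ctx (d.1 ++ x) [])))
    fun c u v a b => h.le a (b.ctx _ _)).finite_subsets.image Set.sInter).subset ?_,
    ⟨{([], [])}, Set.ext fun x => ⟨by rintro a _ rfl; rw [append_nil]; exact a, fun a => by
      have := a _ rfl; rwa [append_nil] at this⟩⟩, ⟨∅, Set.ext (by simp)⟩, ?_⟩
  · rintro _ ⟨T, rfl⟩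
    exact ⟨_, Set.image_subset_range _ T, Set.ext (by simp)⟩
  · rintro _ ⟨T, rfl⟩
    refine ⟨fun u v a b c d => h _ _ (a c d) (b.ctx _ _), fun ⟨x, y⟩ a =>
      ⟨_, ⟨Set.image2 (fun c z => (c.1, z ++ c.2)) T {z | ∀ c ∈ T, c.1 ++ (x ++ z) ++ c.2 ∈ L}, rfl⟩,
        _, ⟨(fun c => (c.1 ++ x, c.2)) '' T, rfl⟩, ?_, ?_, fun u b v c d e => ?_⟩⟩
    · rintro _ ⟨c, d, z, e, rfl⟩
      simpa using e c d
    · rintro _ ⟨c, d, rfl⟩
      simpa using a c d
    · simpa using b _ ⟨d, e, v, fun d e => by simpa using c _ ⟨d, e, rfl⟩, rfl⟩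

theorem ideal (hB : ∀ a L, Up val L → D {w | w ∈ L ∧ a ∉ w}) (I : Language A) :
    Up val I → Idl I → (∃ w, w ∈ I) → ∀ L, Up val L → I ≤ L → D L := by
  induction I using (acc (wqoLe (val := val))).induction with
  | _ I ih =>
  intro h1 h2 h3 L h4 h5
  obtain ⟨a1, a2, a3, a4⟩ := QQ_spec h4
  obtain ⟨b1, b2, -, b4⟩ := QQ_spec h1
  refine core hB (a1.union b1) ?_ 1 (fun Q a U u v b c d => ?_) L (.inl a2)
  · rintro Q (a | a)
    exacts [(a4 Q a).imp_right (·.mono Set.subset_union_left),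
      (b4 Q a).imp_right (·.mono Set.subset_union_right)]
  have up : Up val (Res Q U) := (a.elim (a4 Q · |>.1) (b4 Q · |>.1)).res U
  have hI : ∀ x ∈ I, x ∈ Res Q U := fun x e => gap (by
    obtain ⟨T, rfl⟩ | ⟨T, rfl⟩ := a
    exacts [fun c _ => h5 (h2 _ _ _ (h2 [] _ _ e)), fun c _ => h2 _ _ _ (h2 [] _ _ e)])
  have hS : ∀ p ∈ sig I, p ∈ sig (Res Q U) := fun p ⟨w, e, f⟩ => ⟨w, hI w e, f⟩
  have i1 : ∀ x ∈ I, ∀ y, (x, y) ∈ sig (Res Q U) := fun x e y => ⟨_, hI _ (h2 [] x y e), shA x y⟩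
  by_cases e : u ∈ I
  · exact ⟨I, Set.univ, .inl (.inr b2), .inl (.inl a3), fun _ => h1.le e, fun _ _ => trivial,
      fun x f y _ => i1 x f y⟩
  by_cases f : v ∈ I
  · exact ⟨Set.univ, I, .inl (.inl a3), .inl (.inr b2), fun _ _ => trivial, fun _ => h1.le f,
      fun x _ y f => sig_comm (i1 y f x)⟩
  obtain ⟨s, s1, s2⟩ := esc h2 h3 e d
  obtain ⟨t, t1, t2⟩ := esc h2 h3 f c
  have k : ∀ x y, x ∉ I → D {z | Le val y z ∨ z ∈ I ∨ z ∈ J val x} := fun x y q =>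
    ih {z | z ∈ I ∨ z ∈ J val x} ⟨fun _ _ => h1.le, fun _ => .inl, fun r => q (r (.inr (J_self x)))⟩
      (fun _ _ r r' => r.imp (h1 _ _ · r') (J_up x _ _ · r'))
      (fun _ _ _ r => r.imp (h2 _ _ _) (J_idl x _ _ _)) ⟨x, .inr (J_self x)⟩ _
      (fun _ _ r r' => r.imp (·.tail r') (·.imp (h1 _ _ · r') (J_up x _ _ · r'))) fun _ => .inr
  refine ⟨_, _, .inr (k _ u s1), .inr (k _ v t1), fun _ => .inl, fun _ => .inl, ?_⟩
  rintro x (q | q | ⟨p, p', q⟩) y (r | r | ⟨o, o', r⟩)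
  exacts [up.sig2 b q r, sig_comm (i1 y r x),
    up.sig2 (hS _ (sig_comm (wrap h2 t2 o o' [] []))) (by simpa) r, i1 x q y, i1 x q y, i1 x q y,
    up.sig2 (hS _ (wrap h2 s2 p p' [] [])) q (by simpa), sig_comm (i1 y r x),
    up.sig2 (hS _ (wrap h2 s2 p p' (o ++ t) o')) q (by simpa using r)]

end Pool.Agent.H.MP_0c20e5_lc
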