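import Pool.Agent.H.MP_0c20e5_lc.B

set_option autoImplicit false
set_option linter.unusedVariables false
set_option linter.unusedSectionVars false

/-! The group languages and the induction on the alphabet. -/

namespace Pool.Agent.H.MP_0c20e5_lc

open List Relation

variable {A G : Type} [Group G] {val : A → G}

theorem quot [Finite G] (hs : (pi val).Surjective) : ∃ (M : Type) (_ : CommGroup M) (_ : Finite M) (f : G →* M),
    ∀ S : Set G, (∀ g a b s, s ∈ S ↔ s * (g * (val a * val b) * (val b * val a)⁻¹ * g⁻¹) ∈ S) →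
      ∀ h, f h = 1 → ∀ s ∈ S, s * h ∈ S := by
  let N := Subgroup.normalClosure {x | ∃ a b, x = (val a * val b) * (val b * val a)⁻¹}
  have k : ∀ u v, Commute (QuotientGroup.mk' N (pi val u)) (QuotientGroup.mk' N (pi val v)) := by
    intro u v
    simp only [pi, map_list_prod]
    refine Commute.list_prod_right _ _ fun y e => Commute.list_prod_left _ _ fun x f => ?_
    simp only [mem_map, exists_exists_and_eq_and] at e f
    obtain ⟨b, -, rfl⟩ := e
    obtain ⟨a, -, rfl⟩ := f
    rw [Commute, SemiconjBy, ← map_mul, ← map_mul, ← mul_inv_eq_one, ← map_inv, ← map_mul]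
    exact (QuotientGroup.eq_one_iff _).2 (Subgroup.subset_normalClosure ⟨a, b, rfl⟩)
  refine ⟨G ⧸ N, { (inferInstance : Group (G ⧸ N)) with mul_comm := fun x y => ?_ }, inferInstance,
    QuotientGroup.mk' N, fun S h g e s => ?_⟩
  · obtain ⟨x, rfl⟩ := QuotientGroup.mk'_surjective N x
    obtain ⟨y, rfl⟩ := QuotientGroup.mk'_surjective N y
    obtain ⟨u, rfl⟩ := hs x
    obtain ⟨v, rfl⟩ := hs y
    exact k u v
  · have : ∀ s, s ∈ S ↔ s * g ∈ S := by
      refine Subgroup.closure_induction (p := fun g _ => ∀ s, s ∈ S ↔ s * g ∈ S) ?_ (by simp)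
        (fun x y _ _ a b s => by rw [← mul_assoc, ← b, ← a]) (fun x _ a s => by rw [a (s * x⁻¹)]; simp)
        (show g ∈ N from (QuotientGroup.eq_one_iff g).1 e)
      intro x a0
      obtain ⟨_, ⟨a, b, rfl⟩, c⟩ := Group.mem_conjugatesOfSet_iff.1 a0
      obtain ⟨c', rfl⟩ := isConj_iff.1 c
      simpa only [mul_assoc] using h c' a b
    exact (this s).1

def Sub : ℕ → List A → Prop
  | 0, _ => True
  | n + 1, v => ∀ b, ∃ y v', v = y ++ b :: v' ∧ Sub n v'

theorem Rich.sub (n : ℕ) : ∀ v : List A, Rich (2 * n) v → Sub n v := by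
  classical
  induction n with
  | zero => exact fun _ _ => trivial
  | succ n ih =>
    intro v h b
    obtain ⟨y, v', rfl, c⟩ := eq_append_cons_of_mem (a := b) (xs := v) (by
      by_contra q
      exact h [b] (by simp; omega) ⟨v, [], by simp, .inl q, rfl⟩)
    exact ⟨y, v', rfl, ih v' fun l d e => h (b :: b :: l) (by simp; omega)
      ⟨y, _, rfl, .inl c, [b], v', rfl, .inr rfl, e⟩⟩

theorem Sub.pre {n} {v : List A} (h : Sub n v) (q) : Sub n (q ++ v) := by
  cases n with
  | zero => trivial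
  | succ n => exact fun b => let ⟨y, v', c, d⟩ := h b; ⟨q ++ y, v', by simp [c], d⟩

theorem exX [Finite A] [Finite G] (hs : (pi val).Surjective) :
    ∃ X : List A, ∀ g a, ∃ p q, X = p ++ a :: q ∧ pi val p = g := by
  have k : ∀ l : List (G × A), ∃ X : List A, ∀ x ∈ l, ∃ p q, X = p ++ x.2 :: q ∧ pi val p = x.1 := by
    intro l
    induction l with
    | nil => exact ⟨[], by simp⟩
    | cons x l ih =>
      obtain ⟨X, h⟩ := ih
      obtain ⟨w, e⟩ := hs ((pi val X)⁻¹ * x.1)
      refine ⟨X ++ w ++ [x.2], forall_mem_cons.2 ⟨⟨X ++ w, [], rfl, by simp [e]⟩, fun y a => ?_⟩⟩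
      obtain ⟨p, q, rfl, b⟩ := h y a
      exact ⟨p, _, by simp; rfl, b⟩
  have := Fintype.ofFinite (G × A)
  obtain ⟨X, h⟩ := k Finset.univ.toList
  exact ⟨X, fun g a => h (g, a) (by simp)⟩

section
variable [Finite G] {M : Type} [CommGroup M] {f : G →* M} {X : List A}

theorem grow (hf : ∀ S : Set G, (∀ g a b s, s ∈ S ↔ s * (g * (val a * val b) * (val b * val a)⁻¹ * g⁻¹) ∈ S) →
      ∀ h, f h = 1 → ∀ s ∈ S, s * h ∈ S) (hX : ∀ g a, ∃ p q, X = p ++ a :: q ∧ pi val p = g) (n : ℕ) :
    ∀ (S T : Set G) v, S.Nonempty → Sub n v →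
      (∀ s ∈ S, ∀ z, Sh (replicate n X).flatten v z → s * pi val z ∈ T) →
      (∃ t ∈ T, ∀ h, f h = 1 → t * h ∈ T) ∨ S.ncard + n ≤ T.ncard := by
  induction n with
  | zero =>
    refine fun S T v _ _ h => .inr ?_
    rw [add_zero, ← Set.ncard_image_of_injective S (mul_left_injective (pi val v))]
    exact Set.ncard_le_ncard (by rintro _ ⟨s, a, rfl⟩; exact h s a v (shL v).comm)
  | succ n ih =>
    rintro S T v ⟨s0, h0⟩ a h
    by_cases c : ∀ g a b s, s ∈ S ↔ s * (g * (val a * val b) * (val b * val a)⁻¹ * g⁻¹) ∈ S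
    · refine .inl ⟨_, h s0 h0 _ (shA _ _), fun k e => ?_⟩
      have := h _ (hf S c (pi val ((replicate (n + 1) X).flatten ++ v) * k *
        (pi val ((replicate (n + 1) X).flatten ++ v))⁻¹) (by simp [e]) s0 h0) _ (shA _ _)
      simpa only [mul_assoc, inv_mul_cancel, mul_one] using this
    simp only [not_forall] at c
    obtain ⟨g, x, b, s, c⟩ := c
    obtain ⟨y, v', rfl, d⟩ := a b
    obtain ⟨p, q, e, e'⟩ := hX ((pi val y)⁻¹ * g) x
    refine (ih ((· * (g * (val x * val b) * pi val q)) '' S ∪ (· * (g * (val b * val x) * pi val q)) '' S)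
      T v' ⟨_, .inl ⟨s0, h0, rfl⟩⟩ d ?_).imp_right fun k => ?_
    · rw [replicate_succ, flatten_cons] at h
      rintro _ (⟨s, a, rfl⟩ | ⟨s, a, rfl⟩) z k
      · have := h s a (y ++ (p ++ x :: b :: (q ++ z))) (by
          nth_rw 1 [e]
          simpa using (shA y p).comm.app (Sh.l x (Sh.r b ((shL q).app k))))
        simpa [e', mul_assoc] using this
      · have := h s a (y ++ (p ++ b :: x :: (q ++ z))) (by
          nth_rw 1 [e]
          simpa using (shA y p).comm.app (Sh.r b (Sh.l x ((shL q).app k))))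
        simpa [e', mul_assoc] using this
    · refine le_trans ?_ k
      have e1 := Set.ncard_image_of_injective S (mul_left_injective (g * (val x * val b) * pi val q))
      have e2 := Set.ncard_image_of_injective S (mul_left_injective (g * (val b * val x) * pi val q))
      have := Set.ncard_lt_ncard (s := (· * (g * (val x * val b) * pi val q)) '' S)
        (t := (· * (g * (val x * val b) * pi val q)) '' S ∪ (· * (g * (val b * val x) * pi val q)) '' S)
        ⟨Set.subset_union_left, fun r => c (by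
          have := Set.ext_iff.1 (Set.eq_of_subset_of_ncard_le (Set.subset_union_right.trans r)
            (by omega)) (s * (g * (val x * val b) * pi val q))
          simpa [mul_assoc] using this.symm)⟩
      omega

def Full (val : A → G) (f : G →* M) (x v : List A) : Prop :=
  ∀ g, f g = f (pi val x) * f (pi val v) → ∃ z, Sh x v z ∧ pi val z = g

theorem f_pi (w : List A) : f (pi val w) = (w.map (f ∘ val)).prod := by
  simp [pi, map_list_prod]

theorem Sh.ab {u v w : List A} (h : Sh u v w) : f (pi val w) = f (pi val u) * f (pi val v) := by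
  simp only [f_pi, h.prod]

theorem Full.comm {x v} (h : Full val f x v) : Full val f v x := fun g a =>
  let ⟨z, b, c⟩ := h g (a.trans (mul_comm _ _)); ⟨z, b.comm, c⟩

theorem Full.le {x v x'} (h : Full val f x v) (a : Le val x x') : Full val f x' v := by
  induction a with
  | refl => exact h
  | tail _ b ih =>
    intro g c
    obtain ⟨z, d, e⟩ := ih g (by rwa [b.pi])
    obtain ⟨z', k, k'⟩ := d.st b
    exact ⟨z', k, k'.pi ▸ e⟩

theorem Full.J {x v x'} (h : Full val f x v) (a : x' ∈ J val x) : Full val f x' v := by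
  obtain ⟨p, q, a⟩ := a
  refine Full.le (fun g b => ?_) a
  obtain ⟨z, c, d⟩ := h ((pi val p)⁻¹ * g * (pi val q)⁻¹) (by
    simp only [map_mul, map_inv, b, pi_app]
    simp [mul_comm, mul_left_comm, mul_assoc])
  exact ⟨_, by simpa using ((shL p).app c).app (shL q), by simp [d]⟩

theorem resQ {Q : Language A} (U : List (List A)) : ∀ z ∈ Res Q U,
    ∃ w ∈ Q, f (pi val w) = f (pi val z) * f (pi val U.flatten) := by
  induction U with
  | nil => exact fun z a => ⟨z, a, by simp⟩
  | cons u U ih =>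
    rintro x ⟨z, a, b⟩
    obtain ⟨w, c, d⟩ := ih z a
    exact ⟨w, c, by simp [d, b.ab, mul_assoc]⟩
end

theorem grp [Finite A] [Finite G] (hs : (pi val).Surjective)
    (hB : ∀ a L, Up val L → D {w | w ∈ L ∧ a ∉ w}) : D {w | pi val w = 1} := by
  obtain ⟨M, _, _, f, hf⟩ := quot hs
  obtain ⟨X, hX⟩ := exX hs
  have k0 : ∀ v, Sub (Nat.card G) v → Full val f (replicate (Nat.card G) X).flatten v := fun v a g b => by
    obtain ⟨_, ⟨z, c, rfl⟩, d⟩ | c := grow hf hX _ {1}
      {g | ∃ z, Sh (replicate (Nat.card G) X).flatten v z ∧ pi val z = g} v (by simp) a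
      (by rintro _ rfl z c; exact ⟨z, c, by simp⟩)
    · simpa using d ((pi val z)⁻¹ * g) (by simp [b, c.ab])
    · have := Set.ncard_le_card
        {g | ∃ z, Sh (replicate (Nat.card G) X).flatten v z ∧ pi val z = g}
      simp only [Set.ncard_singleton] at c
      omega
  have k1 : ∀ n, Sub n (replicate n X).flatten := fun n => by
    induction n with
    | zero => trivial
    | succ n ih =>
      intro b
      obtain ⟨p, q, e, -⟩ := hX 1 b
      exact ⟨p, _, by rw [replicate_succ, flatten_cons]; nth_rw 1 [e]; simp, ih.pre q⟩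
  generalize (replicate (Nat.card G) X).flatten = Z, k1 (Nat.card G) = k2 at k0
  have up : ∀ g, Up val {w | pi val w = g} := fun g _ _ a b => b.pi.symm.trans a
  refine core hB (Set.finite_range fun g => {w | pi val w = g}) ?_ (2 * Nat.card G) ?_ _ ⟨1, rfl⟩
  · rintro _ ⟨g, rfl⟩
    exact ⟨up g, fun p a => ⟨_, ⟨_, rfl⟩, _, ⟨_, rfl⟩, rfl, rfl, fun u b v c =>
      (pi_app ..).trans (b ▸ c ▸ (pi_app ..).symm.trans a)⟩⟩
  rintro _ ⟨g, rfl⟩ U u v a b c
  have k : ∀ y, D {z | z ∈ {z | Le val y z ∨ z ∈ J val Z} ∧ (z.map (f ∘ val)).prod = f (pi val y)} :=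
    fun y => (ideal hB _ (J_up Z) (J_idl Z) ⟨_, J_self Z⟩ _
      (fun _ _ r r' => r.imp (·.tail r') (J_up Z _ _ · r')) fun _ => .inr).inter _ _
  refine ⟨_, _, .inr (k u), .inr (k v), fun _ e => ⟨.inl e, by rw [← f_pi, e.pi]⟩,
    fun _ e => ⟨.inl e, by rw [← f_pi, e.pi]⟩, fun x ⟨d, d'⟩ y ⟨e, e'⟩ => ?_⟩
  have q : Full val f x y → (x, y) ∈ sig (Res {w | pi val w = g} U) := fun q => by
    obtain ⟨z, r, r'⟩ := a
    obtain ⟨w, rfl, s⟩ := resQ (val := val) (f := f) U z r
    obtain ⟨z', t, t'⟩ := q (pi val w * (pi val U.flatten)⁻¹) (by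
      rw [f_pi x, f_pi y, d', e', ← r'.ab]; simp [s])
    exact ⟨z', gap (show pi val _ = _ by simp [t']), t⟩
  obtain d | d := d <;> obtain e | e := e
  exacts [((up g).res U).sig2 a d e, q (((k0 u (Rich.sub _ _ b)).J e).comm.le d),
    q (((k0 v (Rich.sub _ _ c)).J d).comm.le e).comm, q (((k0 Z k2).J d).comm.J e).comm]

theorem main (n : ℕ) : ∀ (A : Type) [Finite A], Nat.card A = n → ∀ (G : Type) [Group G] [Finite G]
    (val : A → G) (L : Language A), Up val L → D L := by
  induction n using Nat.strong_induction_on with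
  | _ n ih =>
  intro A _ hA G _ _ val L h
  have hB : ∀ (G : Type) [Group G] [Finite G] (val : A → G) a L, Up val L → D {w | w ∈ L ∧ a ∉ w} :=
    fun G _ _ val a L h => ((ih _ (hA ▸ Finite.card_subtype_lt (p := (· ≠ a)) (x := a) (by simp))
      {x // x ≠ a} rfl G (val ∘ Subtype.val) {w | w.map Subtype.val ∈ L} (by
        rintro _ _ b ⟨p, q, k, rfl, rfl, c⟩
        exact h _ _ b ⟨_, _, k.map Subtype.val, map_append, by simp only [map_append],
          by simpa only [pi, List.map_map] using c⟩)).map Subtype.val).congr fun w =>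
      ⟨by rintro ⟨w, b, rfl⟩; exact ⟨b, by simp⟩, fun ⟨b, c⟩ => by
        lift w to List {x // x ≠ a} using fun x e => (ne_of_mem_of_not_mem e c)
        exact ⟨w, b, rfl⟩⟩
  have hK : D {w | pi val w = 1} := by
    let H : Subgroup G :=
      { carrier := Set.range (pi val)
        one_mem' := ⟨[], rfl⟩
        mul_mem' := by rintro _ _ ⟨u, rfl⟩ ⟨v, rfl⟩; exact ⟨_, pi_app ..⟩
        inv_mem' := by
          rintro _ ⟨u, rfl⟩
          refine ⟨(replicate (Nat.card G - 1) u).flatten, eq_inv_of_mul_eq_one_left ?_⟩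
          rw [← pi_pi, pi, map_replicate, prod_replicate, ← pow_succ,
            Nat.sub_add_cancel Nat.card_pos, pow_card_eq_one'] }
    have k : ∀ w, ((pi (fun a => (⟨val a, [a], by simp⟩ : H)) w : H) : G) = pi val w := fun w => by
      induction w <;> simp [*]
    exact (grp (val := fun a => (⟨val a, [a], by simp⟩ : H)) (fun ⟨_, w, e⟩ => ⟨w, Subtype.ext
      ((k w).trans e)⟩) (hB _ _)).congr fun w =>
        ⟨fun e => (k w).symm.trans (congrArg Subtype.val e), fun e => Subtype.ext ((k w).trans e)⟩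
  have hI : ∀ u, D {w | Ins val (· = ·) u w} := fun u => by
    induction u with
    | nil => exact hK.congr fun w => ⟨.nil, by rintro ⟨a⟩; exact a⟩
    | cons a u ih =>
      refine (hK.mul ((D_one (x := [a]) le_rfl).mul ih)).congr fun w => ⟨?_, ?_⟩
      · rintro ⟨y, b, _, ⟨_, rfl, v, c, rfl⟩, rfl⟩
        exact .cons b rfl c
      · rintro (_ | ⟨b, rfl, c⟩)
        exact ⟨_, b, _, ⟨_, rfl, _, c, rfl⟩, rfl⟩
  obtain ⟨P, a, b, c⟩ := cover (wqoI (val := val)) L
  refine (D_union (b.image fun u => {w | Ins val (· = ·) u w}) ?_).congr fun w => ⟨?_, fun e => ?_⟩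
  · rintro _ ⟨u, -, rfl⟩
    exact hI u
  · rintro ⟨_, ⟨u, d, rfl⟩, e⟩
    exact h.le (a d) e.le
  · obtain ⟨u, d, f⟩ := c w e
    exact ⟨_, ⟨u, d, rfl⟩, f⟩

end Pool.Agent.H.MP_0c20e5_lc
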